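import Pool.Agent.H8.AV3.Stmts2

/-!
# LTL: the lattice of a point of the cubic
-/

set_option autoImplicit false

namespace Pool.Agent.H95.AV3B

open Polynomial Matrix Pool.AVR Pool.AV3

namespace LTL

section

variable {L : Type} [Field L] {O : ValuationSubring L} {π : L}

theorem unit_not (h : AVS.Loc L O π) {t : L} (ht : t ≠ 0) (h1 : t ∈ O) (h2 : t⁻¹ ∈ O) :
    t / π ∉ O := by
  intro h3
  exact (h.unif t h1 ht).2 h3 h2

theorem one_not (h : AVS.Loc L O π) : 1 / π ∉ O :=
  unit_not h one_ne_zero O.one_mem (by rw [inv_one]; exact O.one_mem)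

theorem mem_of_div (h : AVS.Loc L O π) {z : L} (hz : z / π ∈ O) : z ∈ O := by
  have h1 : z = π * (z / π) := by
    field_simp [h.pi_ne]
  rw [h1]
  exact O.mul_mem _ _ h.pi_mem hz

theorem mul_div_mem {z r : L} (hz : z / π ∈ O) (hr : r ∈ O) : r * z / π ∈ O := by
  rw [mul_div_assoc]
  exact O.mul_mem _ _ hr hz

theorem mul_div_mem' {z r : L} (hz : z / π ∈ O) (hr : r ∈ O) : z * r / π ∈ O := by
  rw [mul_comm]
  exact mul_div_mem hz hr

theorem one_add (h : AVS.Loc L O π) {z : L} (hz : z / π ∈ O) :
    1 + z ≠ 0 ∧ 1 + z ∈ O ∧ (1 + z)⁻¹ ∈ O := by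
  have hzO := mem_of_div h hz
  have hmem : 1 + z ∈ O := O.add_mem _ _ O.one_mem hzO
  have h0 : (1 + z) / π ∉ O := by
    intro h2
    apply one_not h
    have h3 : 1 / π = (1 + z) / π - z / π := by
      rw [← sub_div]
      congr 1
      ring
    rw [h3]
    exact sub_mem h2 hz
  have hne : 1 + z ≠ 0 := by
    intro h1
    apply h0
    rw [h1, zero_div]
    exact O.zero_mem
  refine ⟨hne, hmem, ?_⟩
  by_contra h2
  exact h0 ((h.unif _ hmem hne).1 h2)

end

theorem fp_e1 {L : Type} [Field L] (a b x y : L) : tev (FP a b x y) e1 = 0 := by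
  simp only [tev, FP, e1, Matrix.cons_val]
  ring

theorem tder_fp {L : Type} [Field L] (a b x y : L) (w : Fin 3 → L) :
    tder (FP a b x y) e1 w = -w 2 := by
  simp only [tder, FP, e1, Matrix.cons_val]
  ring

theorem tev_fp {L : Type} [Field L] (a b x y : L) (w : Fin 3 → L) (h : w 2 = 0) :
    tev (FP a b x y) w = w 0 ^ 2 * w 1 := by
  simp only [tev, FP, Matrix.cons_val, h]
  ring

end LTL

open LTL

theorem LTL_thm (hLAT : Pool.AV3.LATStmt) : LTLStmt := by
  intro L _ O π h a b c x y ha hb hc hxy
  have hπ := h.pi_ne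
  have hsq : ∀ z : L, z ^ 2 ∈ O → z ∈ O := by
    intro z hz
    rcases O.mem_or_inv_mem z with h1 | h1
    · exact h1
    · by_cases h0 : z = 0
      · rw [h0]
        exact O.zero_mem
      · have h2 : z = z ^ 2 * z⁻¹ := by
          field_simp
        rw [h2]
        exact O.mul_mem _ _ hz h1
  have hY : ∀ X Y : L, OnC a b c X Y → X ∈ O → Y ∈ O := by
    intro X Y hXY hX
    apply hsq
    have h1 : Y ^ 2 = X ^ 3 + a * X ^ 2 + b * X + c := hXY
    rw [h1]
    exact add_mem (add_mem (add_mem (pow_mem hX 3) (mul_mem ha (pow_mem hX 2))) (mul_mem hb hX)) hc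
  by_cases hx : x ∈ O
  · -- integral points
    have hy : y ∈ O := hY x y hxy hx
    have hc2 : (2 : L) ∈ O := by
      have h1 : (2 : L) = 1 + 1 := by norm_num
      rw [h1]
      exact add_mem O.one_mem O.one_mem
    have hFP : ∀ i, FP a b x y i ∈ O := by
      intro i
      fin_cases i
      · exact O.zero_mem
      · exact O.one_mem
      · exact neg_mem hx
      · exact O.zero_mem
      · exact O.zero_mem
      · exact mul_mem (neg_mem hc2) hy
      · exact O.zero_mem
      · exact neg_mem O.one_mem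
      · exact neg_mem (add_mem hx ha)
      · exact neg_mem (add_mem (add_mem (pow_mem hx 2) (mul_mem ha hx)) hb)
    refine ⟨1, e1, 1, ⟨?_, ?_, ?_⟩, one_ne_zero, ?_, ?_⟩
    · rw [Matrix.det_one]
      exact one_ne_zero
    · intro i
      rw [Matrix.det_one, div_one, tsub_one]
      exact hFP i
    · have hform : (fun i => tsub (FP a b x y) 1 i / (1 : Matrix (Fin 3) (Fin 3) L).det) =
          FP a b x y := by
        funext i
        rw [Matrix.det_one, div_one, tsub_one]
      rw [hform]
      refine ⟨?_, ⟨1, ?_⟩, ?_, ⟨![0, 0, 1], ?_, ?_⟩, ⟨![1, 1, 0], ?_, ?_, ?_⟩⟩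
      · intro i
        fin_cases i
        · exact O.zero_mem
        · exact O.one_mem
        · exact O.zero_mem
      · show (1 : L) / π ∉ O
        exact one_not h
      · rw [fp_e1, zero_div]
        exact O.zero_mem
      · intro i
        fin_cases i
        · exact O.zero_mem
        · exact O.zero_mem
        · exact O.one_mem
      · rw [tder_fp]
        show -(1 : L) / π ∉ O
        intro h2
        apply one_not h
        have h3 : 1 / π = -(-(1 : L) / π) := by ring
        rw [h3]
        exact neg_mem h2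
      · intro i
        fin_cases i
        · exact O.one_mem
        · exact O.one_mem
        · exact O.zero_mem
      · rw [tder_fp]
        show -(0 : L) / π ∈ O
        rw [neg_zero, zero_div]
        exact O.zero_mem
      · rw [tev_fp _ _ _ _ _ rfl]
        show (1 : L) ^ 2 * 1 / π ∉ O
        rw [one_pow, one_mul]
        exact one_not h
    · rw [Matrix.one_mulVec, one_smul]
    · intro X Y M hXY hX hne hM z r hr hz
      rw [Matrix.one_mulVec] at hz
      rintro ⟨t, ht, hzt⟩
      have hz1 : z 1 = r * X := by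
        rw [hz]
        rfl
      have hz2 : z 2 = r := by
        rw [hz]
        show r * 1 = r
        rw [mul_one]
      have h2 := hzt 2
      have h1 := hzt 1
      rw [hz2] at h2
      rw [hz1] at h1
      have h3 : (e1 : Fin 3 → L) 2 = 0 := rfl
      have h4 : (e1 : Fin 3 → L) 1 = 1 := rfl
      rw [h3, mul_zero, sub_zero] at h2
      rw [h4, mul_one] at h1
      apply unit_not h ht.1 ht.2.1 ht.2.2
      have h5 : t / π = r * X / π - (r * X - t) / π := by
        rw [← sub_div]
        congr 1
        ring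
      rw [h5]
      exact sub_mem (mul_div_mem' h2 hX) h1
  · -- points in the kernel of reduction
    have hx0 : x ≠ 0 := fun h0 => hx (by rw [h0]; exact O.zero_mem)
    have hxi : x⁻¹ ∈ O := by
      rcases O.mem_or_inv_mem x with h1 | h1
      · exact absurd h1 hx
      · exact h1
    have hxip : x⁻¹ / π ∈ O := by
      rw [← h.unif _ hxi (inv_ne_zero hx0), inv_inv]
      exact hx
    set zeta : L := (a + b * x⁻¹ + c * x⁻¹ ^ 2) * x⁻¹ with hzeta
    have hzp : zeta / π ∈ O := by
      apply mul_div_mem hxip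
      exact add_mem (add_mem ha (mul_mem hb hxi)) (mul_mem hc (pow_mem hxi 2))
    obtain ⟨hz0, hz1, hz2⟩ := one_add h hzp
    have hxy' : y ^ 2 = x ^ 3 * (1 + zeta) := by
      have h1 : y ^ 2 = x ^ 3 + a * x ^ 2 + b * x + c := hxy
      rw [h1, hzeta]
      field_simp
      ring
    have hy0 : y ≠ 0 := by
      intro h0
      rw [h0] at hxy'
      have h1 : x ^ 3 * (1 + zeta) ≠ 0 := mul_ne_zero (pow_ne_zero 3 hx0) hz0
      exact h1 (by rw [← hxy']; ring)
    set u : L := (1 + zeta)⁻¹ with hu
    have hu0 : u ≠ 0 := inv_ne_zero hz0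
    have huO : u ∈ O := hz2
    have huiO : u⁻¹ ∈ O := by
      rw [hu, inv_inv]
      exact hz1
    have hux : u * y ^ 2 = x ^ 3 := by
      rw [hxy', hu]
      field_simp
    set w : L := x / y with hw
    have hw0 : w ≠ 0 := div_ne_zero hx0 hy0
    have hxw : x = u / w ^ 2 := by
      rw [hw, div_pow]
      field_simp
      linear_combination -hux
    have hyw : y = u / w ^ 3 := by
      rw [hw, div_pow]
      field_simp
      linear_combination -hux
    have hwi : w⁻¹ ∉ O := by
      intro h1
      apply hx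
      have h2 : x = u * (w⁻¹ * w⁻¹) := by
        rw [hxw]
        field_simp
      rw [h2]
      exact mul_mem huO (mul_mem h1 h1)
    have hwO : w ∈ O := by
      rcases O.mem_or_inv_mem w with h1 | h1
      · exact h1
      · exact absurd h1 hwi
    have hwp : w / π ∈ O := (h.unif w hwO hw0).1 hwi
    have heq : u ^ 2 = u ^ 3 + a * u ^ 2 * w ^ 2 + b * u * w ^ 4 + c * w ^ 6 := by
      have h1 : y ^ 2 = x ^ 3 + a * x ^ 2 + b * x + c := hxy
      have h2 : x * w ^ 2 = u := by
        rw [hxw]
        field_simp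
      have h3 : y * w ^ 3 = u := by
        rw [hyw]
        field_simp
      calc u ^ 2 = (y * w ^ 3) ^ 2 := by rw [h3]
        _ = y ^ 2 * w ^ 6 := by ring
        _ = (x * w ^ 2) ^ 3 + a * (x * w ^ 2) ^ 2 * w ^ 2 + b * (x * w ^ 2) * w ^ 4 +
            c * w ^ 6 := by rw [h1]; ring
        _ = _ := by rw [h2]
    obtain ⟨c', hc', hE⟩ := hLAT L O.toSubring a b c u u w 0 u⁻¹ ha hb hc huO huO hwO
      (Subring.zero_mem _) huiO hw0 (by rw [zero_mul, zero_add]; exact inv_mul_cancel₀ hu0) heq
    rw [← hxw, ← hyw] at hE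
    set g : Matrix (Fin 3) (Fin 3) L :=
      !![w ^ 2, -(u * u⁻¹ ^ 2 * w), -(u * u⁻¹ / w); 0, 1, 0; 0, 0, 1] with hg
    have hdet : g.det = w ^ 2 := by
      rw [hg, Matrix.det_fin_three]
      simp
    have hgne : g.det ≠ 0 := by
      rw [hdet]
      exact pow_ne_zero 2 hw0
    have hg0 : ∀ z : Fin 3 → L, (g *ᵥ z) 0 = w ^ 2 * z 0 - u⁻¹ * w * z 1 - w⁻¹ * z 2 := by
      intro z
      rw [mulVec3]
      simp only [hg, Matrix.of_apply, Matrix.cons_val, Matrix.cons_val']
      field_simp
      ring
    have hg1 : ∀ z : Fin 3 → L, (g *ᵥ z) 1 = z 1 := by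
      intro z
      rw [mulVec3]
      simp only [hg, Matrix.of_apply, Matrix.cons_val, Matrix.cons_val']
      ring
    have hg2 : ∀ z : Fin 3 → L, (g *ᵥ z) 2 = z 2 := by
      intro z
      rw [mulVec3]
      simp only [hg, Matrix.of_apply, Matrix.cons_val, Matrix.cons_val']
      ring
    have hform : (fun i => tsub (FP a b x y) g i / g.det) = c' := by
      funext i
      rw [hE.2]
      show g.det * c' i / g.det = c' i
      field_simp
    have hgv : g *ᵥ ![u⁻¹, w, 0] = w • (e1 : Fin 3 → L) := by
      funext i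
      fin_cases i
      · show (g *ᵥ ![u⁻¹, w, 0]) 0 = w * 0
        rw [hg0]
        show w ^ 2 * u⁻¹ - u⁻¹ * w * w - w⁻¹ * 0 = w * 0
        ring
      · show (g *ᵥ ![u⁻¹, w, 0]) 1 = w * 1
        rw [hg1]
        show w = w * 1
        ring
      · show (g *ᵥ ![u⁻¹, w, 0]) 2 = w * 0
        rw [hg2]
        show (0 : L) = w * 0
        ring
    have hder : ∀ z : Fin 3 → L, tder c' ![u⁻¹, w, 0] z = -z 2 := by
      intro z
      have h1 := hE.tder ![u⁻¹, w, 0] z
      rw [hgv, tder_smul_left, tder_fp, hg2, hdet] at h1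
      have h2 : w ^ 2 ≠ 0 := pow_ne_zero 2 hw0
      exact (mul_left_cancel₀ h2 h1).symm
    refine ⟨g, ![u⁻¹, w, 0], w, ⟨hgne, ?_, ?_⟩, hw0, hgv, ?_⟩
    · intro i
      have h1 := congrFun hform i
      rw [h1]
      exact hc' i
    · rw [hform]
      refine ⟨?_, ⟨0, ?_⟩, ?_, ⟨![0, 0, 1], ?_, ?_⟩, ⟨![0, 1, 0], ?_, ?_, ?_⟩⟩
      · intro i
        fin_cases i
        · exact huiO
        · exact hwO
        · exact O.zero_mem
      · show u⁻¹ / π ∉ O
        exact unit_not h (inv_ne_zero hu0) huiO (by rw [inv_inv]; exact huO)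
      · have h1 := hE.tev ![u⁻¹, w, 0]
        rw [hgv, tev_smul_vec, fp_e1, mul_zero] at h1
        have h2 : tev c' ![u⁻¹, w, 0] = 0 := by
          rcases mul_eq_zero.1 h1.symm with h3 | h3
          · exact absurd h3 hgne
          · exact h3
        rw [h2, zero_div]
        exact O.zero_mem
      · intro i
        fin_cases i
        · exact O.zero_mem
        · exact O.zero_mem
        · exact O.one_mem
      · rw [hder]
        show -(1 : L) / π ∉ O
        intro h2
        apply one_not h
        have h3 : 1 / π = -(-(1 : L) / π) := by ring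
        rw [h3]
        exact neg_mem h2
      · intro i
        fin_cases i
        · exact O.zero_mem
        · exact O.one_mem
        · exact O.zero_mem
      · rw [hder]
        show -(0 : L) / π ∈ O
        rw [neg_zero, zero_div]
        exact O.zero_mem
      · have h1 := hE.tev ![0, 1, 0]
        rw [tev_fp _ _ _ _ _ (by rw [hg2]; rfl), hg0, hg1, hdet] at h1
        have h2 : tev c' ![0, 1, 0] = u⁻¹ ^ 2 := by
          have h3 : w ^ 2 ≠ 0 := pow_ne_zero 2 hw0
          apply mul_left_cancel₀ h3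
          rw [← h1]
          show (w ^ 2 * 0 - u⁻¹ * w * 1 - w⁻¹ * 0) ^ 2 * 1 = w ^ 2 * u⁻¹ ^ 2
          ring
        rw [h2]
        apply unit_not h (pow_ne_zero 2 (inv_ne_zero hu0)) (pow_mem huiO 2)
        rw [inv_pow, inv_inv]
        exact pow_mem huO 2
    · intro X Y M hXY hX hne hM z r hr hz
      have hYO : Y ∈ O := hY X Y hXY hX
      rintro ⟨t, ht, hzt⟩
      have e2 : z 2 = r := by
        have h1 := congrFun hz 2
        rw [hg2] at h1
        rw [h1]
        show r * 1 = r
        ring
      have e1' : z 1 = r * X := by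
        have h1 := congrFun hz 1
        rw [hg1] at h1
        exact h1
      have e0 : w ^ 2 * z 0 - u⁻¹ * w * z 1 - w⁻¹ * z 2 = r * M := by
        have h1 := congrFun hz 0
        rw [hg0] at h1
        exact h1
      have h2 := hzt 2
      have h0 := hzt 0
      have h3 : (![u⁻¹, w, 0] : Fin 3 → L) 2 = 0 := rfl
      have h4 : (![u⁻¹, w, 0] : Fin 3 → L) 0 = u⁻¹ := rfl
      rw [e2, h3, mul_zero, sub_zero] at h2
      rw [h4] at h0
      -- the unit `w ^ 2 X - u`
      have hsm : (-(u⁻¹ * w ^ 2 * X)) / π ∈ O := by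
        have h5 : (-(u⁻¹ * w ^ 2 * X)) / π = -(u⁻¹ * w * X) * w / π := by ring
        rw [h5]
        apply mul_div_mem hwp
        exact neg_mem (mul_mem (mul_mem huiO hwO) hX)
      obtain ⟨k0, k1, k2⟩ := one_add h hsm
      set d : L := 1 + -(u⁻¹ * w ^ 2 * X) with hd
      have hz0 : z 0 = -(r * (u * Y + w * X ^ 2) * u⁻¹ ^ 2 * d⁻¹) := by
        have hXx : X - x ≠ 0 := sub_ne_zero.2 hne
        have hM' : M * (w ^ 3 * (X - x)) = w ^ 3 * (Y + y) := by
          rw [← hM]
          ring
        have hd' : w ^ 3 * (X - x) = -(w * u * d) := by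
          rw [hxw, hd]
          field_simp
          ring
        have hyy : w ^ 3 * (Y + y) = w ^ 3 * Y + u := by
          rw [hyw]
          field_simp
        rw [hd', hyy] at hM'
        rw [e1', e2] at e0
        have h6 : w * u * d ≠ 0 := mul_ne_zero (mul_ne_zero hw0 hu0) k0
        have h7 : M = -(w ^ 3 * Y + u) / (w * u * d) := by
          rw [eq_div_iff h6]
          linear_combination -hM'
        rw [h7] at e0
        have h8 : w ^ 2 ≠ 0 := pow_ne_zero 2 hw0
        apply mul_left_cancel₀ h8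
        have h9 : w ^ 2 * z 0 = r * (-(w ^ 3 * Y + u) / (w * u * d)) + u⁻¹ * w * (r * X) +
            w⁻¹ * r := by
          linear_combination e0
        rw [h9]
        field_simp
        rw [hd]
        field_simp
        ring
      have hz0p : z 0 / π ∈ O := by
        rw [hz0]
        have h5 : -(r * (u * Y + w * X ^ 2) * u⁻¹ ^ 2 * d⁻¹) / π =
            -((u * Y + w * X ^ 2) * u⁻¹ ^ 2 * d⁻¹) * r / π := by ring
        rw [h5]
        apply mul_div_mem h2
        exact neg_mem (mul_mem (mul_mem (add_mem (mul_mem huO hYO)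
          (mul_mem hwO (pow_mem hX 2))) (pow_mem huiO 2)) k2)
      have h5 : t * u⁻¹ / π ∈ O := by
        have h6 : t * u⁻¹ / π = z 0 / π - (z 0 - t * u⁻¹) / π := by
          rw [← sub_div]
          congr 1
          ring
        rw [h6]
        exact sub_mem hz0p h0
      refine unit_not h (mul_ne_zero ht.1 (inv_ne_zero hu0)) (mul_mem ht.2.1 huiO) ?_ h5
      rw [mul_inv, inv_inv]
      exact mul_mem ht.2.2 huO

end Pool.Agent.H95.AV3B
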