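import Pool.Agent.H8.AV3.Stmts4

/-!
# MAS3: the mass formula (double counting)
-/

set_option autoImplicit false

namespace Pool.Agent.H95.AV3B

open Polynomial Matrix Pool.AVR Pool.AV3

namespace MAS3

theorem card_fib {X Y : Type} [Finite X] [Finite Y] (f : X → Y) (n : ℕ)
    (h : ∀ y, Nat.card {x // f x = y} = n) : Nat.card X = Nat.card Y * n := by
  have := Fintype.ofFinite Y
  rw [← Nat.card_congr (Equiv.sigmaFiberEquiv f), Nat.card_sigma]
  simp only [h, Finset.sum_const, Finset.card_univ, smul_eq_mul, Nat.card_eq_fintype_card]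

theorem finsum_card {α β : Type} [Finite α] [Finite β] (S : Set α) (Q : α → β → Prop) :
    ∑ᶠ a ∈ S, {b | Q a b}.ncard = Nat.card {p : α × β // p.1 ∈ S ∧ Q p.1 p.2} := by
  have := Fintype.ofFinite S
  rw [← finsum_set_coe_eq_finsum_mem, finsum_eq_sum_of_fintype]
  have e : {p : α × β // p.1 ∈ S ∧ Q p.1 p.2} ≃ Σ a : S, {b // Q a b} :=
    { toFun := fun p => ⟨⟨p.1.1, p.2.1⟩, ⟨p.1.2, p.2.2⟩⟩
      invFun := fun q => ⟨(q.1.1, q.2.1), ⟨q.1.2, q.2.2⟩⟩
      left_inv := fun p => rfl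
      right_inv := fun q => rfl }
  rw [Nat.card_congr e, Nat.card_sigma]
  refine Finset.sum_congr rfl fun a _ => ?_
  rw [← Nat.card_coe_set_eq]
  rfl

section

variable {R : Type} [CommRing R]

theorem sg_inj {A D E F G A' D' E' F' G' : R} (h : sg A D E F G = sg A' D' E' F' G') :
    A = A' ∧ D = D' ∧ E = E' ∧ F = F' ∧ G = G' := by
  refine ⟨?_, ?_, ?_, ?_, ?_⟩
  · simpa [sg] using congrFun h 1
  · simpa [sg] using congrFun h 0
  · simpa [sg] using congrFun h 2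
  · simpa [sg] using congrFun h 5
  · simpa [sg] using congrFun h 9

theorem tder_sg (A D E F G : R) (w : Fin 3 → R) :
    tder (sg A D E F G) e1 w = -w 2 := by
  simp only [tder, sg, e1, Matrix.cons_val]
  ring

theorem tev_sg_e1 (A D E F G : R) : tev (sg A D E F G) e1 = 0 := by
  simp only [tev, sg, e1, Matrix.cons_val]
  ring

theorem tev_sg (A D E F G : R) (w : Fin 3 → R) (h : w 2 = 0) :
    tev (sg A D E F G) w = D * w 0 ^ 3 + A * (w 0 ^ 2 * w 1) := by
  simp only [tev, sg, Matrix.cons_val, h]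
  ring

end

theorem map_sg {R k : Type} [CommRing R] [Field k] (φ : R →+* k) (A D E F G : R) :
    (fun i => φ (sg A D E F G i)) = sg (φ A) (φ D) (φ E) (φ F) (φ G) := by
  funext i
  fin_cases i <;> simp [sg]

theorem map_mulVec3 {R k : Type} [CommRing R] [Field k] (φ : R →+* k)
    (g : Matrix (Fin 3) (Fin 3) R) (v : Fin 3 → R) :
    (fun i => φ ((g *ᵥ v) i)) = (g.map φ) *ᵥ (fun i => φ (v i)) := by
  funext i
  simp only [mulVec3, map_add, map_mul, Matrix.map_apply]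

theorem map_e1 {R k : Type} [CommRing R] [Field k] (φ : R →+* k) :
    (fun i => φ ((e1 : Fin 3 → R) i)) = (e1 : Fin 3 → k) := by
  funext i
  fin_cases i <;> simp [e1]

/-- Normal forms at good points have a unit among the first two coefficients. -/
theorem unit_of_good {R k : Type} [CommRing R] [Field k] (φ : R →+* k)
    (hu : ∀ x : R, IsUnit x ↔ φ x ≠ 0)
    (c : Fin 10 → R) (g : Matrix (Fin 3) (Fin 3) R) (A D E F G : R)
    (h : Eqv g c (sg A D E F G))
    (hg : Good (fun i => φ (c i)) (fun i => φ ((g *ᵥ (e1 : Fin 3 → R)) i))) :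
    IsUnit A ∨ IsUnit D := by
  by_contra hcon
  push Not at hcon
  have hA : φ A = 0 := by
    by_contra h0
    exact hcon.1 ((hu A).2 h0)
  have hD : φ D = 0 := by
    by_contra h0
    exact hcon.2 ((hu D).2 h0)
  have hm := h.map φ
  rw [map_sg, hA, hD] at hm
  obtain ⟨_, _, w', hw1, hw2⟩ := hg
  rw [map_mulVec3, map_e1] at hw1
  have hdet : (g.map φ).det ≠ 0 := hm.1.ne_zero
  have hinv : (g.map φ) *ᵥ ((g.map φ)⁻¹ *ᵥ w') = w' := by
    rw [Matrix.mulVec_mulVec, Matrix.mul_nonsing_inv _ hm.1, Matrix.one_mulVec]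
  rw [← hinv, hm.tder] at hw1
  rw [← hinv, hm.tev] at hw2
  rw [tder_sg] at hw1
  have h2 : ((g.map φ)⁻¹ *ᵥ w') 2 = 0 := by
    rcases mul_eq_zero.1 hw1 with h3 | h3
    · exact absurd h3 hdet
    · exact neg_eq_zero.1 h3
  apply hw2
  rw [tev_sg _ _ _ _ _ _ h2]
  ring

end MAS3

open MAS3

theorem MAS3_thm (hREG : REGStmt) (hLIF : LIFStmt) (hSGR : SGRStmt) (hNFO : NFO3Stmt)
    (hSGG : SGGStmt) (hNSU : NSUStmt) (hGLC : GLCStmt) (hJER : JERStmt) : MAS3Stmt := by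
  intro R k _ _ φ τ hR A hA
  obtain ⟨hloc, hkf, hu, -, -⟩ := hREG R k φ τ hR
  have := hR.fin
  have := hloc
  have := hkf
  have hφτ : 2 * τ = 1 := hR.half
  -- the number of normal forms with fixed point
  set U : ℕ := {x : R | IsUnit x}.ncard with hUdef
  have hUpos : 0 < U := by
    rw [hUdef, Set.ncard_pos (Set.toFinite _)]
    exact ⟨1, isUnit_one⟩
  have hRpos : 0 < Nat.card R := Nat.card_pos
  -- fibres
  have hJA : ∀ (c : Fin 10 → R) (g : Matrix (Fin 3) (Fin 3) R) (a d e f' g' : R),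
      Eqv g c (sg a d e f' g') → (Jc τ c ∈ A ↔ fsg τ a d e f' g' ∈ A) := by
    intro c g a d e f' g' hE
    obtain ⟨η, hη⟩ := hJER R τ hφτ g c _ hE
    rw [Jc_sg _ _ _ _ _ _ hφτ] at hη
    constructor
    · intro h
      rw [hη]
      exact hA _ h _
    · intro h
      have h1 : Jc τ c = sh (-η) (fsg τ a d e f' g') := by
        rw [hη, sh_sh]
        simp [sh_zero]
      rw [h1]
      exact hA _ h _
  -- the count of matrices over a given pair
  have key : ∀ (c : Fin 10 → R) (v : Fin 3 → k), Good (fun i => φ (c i)) v →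
      Nat.card {g : Matrix (Fin 3) (Fin 3) R // (fun i => φ ((g *ᵥ (e1 : Fin 3 → R)) i)) = v ∧
        ∃ a d e f' g' : R, Eqv g c (sg a d e f' g')} * Nat.card k ^ 2 =
      Nat.card R ^ 2 * (Nat.card R * U) := by
    intro c v hgood
    have hL := hLIF R k φ τ hR c v hgood.1 hgood.2.1
    have hX : Nat.card {g : Matrix (Fin 3) (Fin 3) R //
        (fun i => φ ((g *ᵥ (e1 : Fin 3 → R)) i)) = v ∧
        ∃ a d e f' g' : R, Eqv g c (sg a d e f' g')} =
        Nat.card {x : Fin 3 → R // (∀ i, φ (x i) = v i) ∧ tev c x = 0} * (Nat.card R * U) := by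
      let F : {g : Matrix (Fin 3) (Fin 3) R //
        (fun i => φ ((g *ᵥ (e1 : Fin 3 → R)) i)) = v ∧
        ∃ a d e f' g' : R, Eqv g c (sg a d e f' g')} →
        {x : Fin 3 → R // (∀ i, φ (x i) = v i) ∧ tev c x = 0} :=
        fun g => ⟨g.1 *ᵥ e1, fun i => congrFun g.2.1 i, by
          obtain ⟨a, d, e, f', g', hE⟩ := g.2.2
          rw [hE.tev, tev_sg_e1, mul_zero]⟩
      apply card_fib F
      rintro ⟨x, hx1, hx2⟩
      have hgx : Good (fun i => φ (c i)) (fun i => φ (x i)) := by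
        have : (fun i => φ (x i)) = v := funext hx1
        rw [this]
        exact hgood
      obtain ⟨g₀, a₀, d₀, e₀, f₀, k₀, hg₀, hE₀, -⟩ := hNFO R k φ τ hR c x hx2 hgx
      have hS := hSGR R k φ τ hR a₀ d₀ e₀ f₀ k₀
      rw [← hS, ← Nat.card_coe_set_eq]
      have h01 : g₀ * g₀⁻¹ = 1 := Matrix.mul_nonsing_inv g₀ hE₀.1
      have h10 : g₀⁻¹ * g₀ = 1 := Matrix.nonsing_inv_mul g₀ hE₀.1
      refine Nat.card_congr
        { toFun := fun g => ⟨g₀⁻¹ * g.1.1, ?_, ?_⟩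
          invFun := fun h => ⟨⟨g₀ * h.1, ?_, ?_⟩, ?_⟩
          left_inv := fun g => ?_
          right_inv := fun h => ?_ }
      · have h1 : g.1.1 *ᵥ (e1 : Fin 3 → R) = x := congrArg Subtype.val g.2
        rw [← Matrix.mulVec_mulVec, h1, ← hg₀, Matrix.mulVec_mulVec, h10, Matrix.one_mulVec]
      · obtain ⟨a, d, e, f', g', hE⟩ := g.1.2.2
        exact ⟨a, d, e, f', g', hE₀.symm.trans hE⟩
      · have h1 : (g₀ * h.1) *ᵥ (e1 : Fin 3 → R) = x := by
          rw [← Matrix.mulVec_mulVec, h.2.1, hg₀]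
        rw [h1]
        exact funext hx1
      · obtain ⟨a, d, e, f', g', hE⟩ := h.2.2
        exact ⟨a, d, e, f', g', hE₀.trans hE⟩
      · apply Subtype.ext
        show (g₀ * h.1) *ᵥ (e1 : Fin 3 → R) = x
        rw [← Matrix.mulVec_mulVec, h.2.1, hg₀]
      · apply Subtype.ext
        apply Subtype.ext
        show g₀ * (g₀⁻¹ * g.1.1) = g.1.1
        rw [← Matrix.mul_assoc, h01, Matrix.one_mul]
      · apply Subtype.ext
        show g₀⁻¹ * (g₀ * h.1) = h.1
        rw [← Matrix.mul_assoc, h10, Matrix.one_mul]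
    rw [hX]
    have hL' : Nat.card {x : Fin 3 → R // (∀ i, φ (x i) = v i) ∧ tev c x = 0} * Nat.card k ^ 2 =
        Nat.card R ^ 2 := by
      rw [← hL, ← Nat.card_coe_set_eq]
      rfl
    calc _ = (Nat.card {x : Fin 3 → R // (∀ i, φ (x i) = v i) ∧ tev c x = 0} * Nat.card k ^ 2) *
          (Nat.card R * U) := by ring
      _ = _ := by rw [hL']
  -- the main map
  let P := {p : R × R × R × R × R // (IsUnit p.1 ∨ IsUnit p.2.1) ∧
      fsg τ p.1 p.2.1 p.2.2.1 p.2.2.2.1 p.2.2.2.2 ∈ A}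
  let Γ := {g : Matrix (Fin 3) (Fin 3) R // IsUnit g.det}
  let Y := {y : (Fin 10 → R) × (Fin 3 → k) // y.1 ∈ {c : Fin 10 → R | Jc τ c ∈ A} ∧
      Good (fun i => φ (y.1 i)) y.2}
  have hEqv : ∀ (g : Matrix (Fin 3) (Fin 3) R) (c : Fin 10 → R), IsUnit g.det →
      Eqv g (g.det • tsub c g⁻¹) c := by
    intro g c hg
    refine ⟨hg, ?_⟩
    rw [tsub_smul_form, Pool.AV3.tsub_mul, Matrix.nonsing_inv_mul g hg, tsub_one]
  let Θ : P × Γ → Y := fun t =>
    ⟨(t.2.1.det • tsub (sg t.1.1.1 t.1.1.2.1 t.1.1.2.2.1 t.1.1.2.2.2.1 t.1.1.2.2.2.2) t.2.1⁻¹,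
      fun i => φ ((t.2.1 *ᵥ (e1 : Fin 3 → R)) i)),
      (hJA _ _ _ _ _ _ _ (hEqv t.2.1 _ t.2.2)).2 t.1.2.2,
      (hSGG R k φ τ hR _ _ _ _ _ _ _ (hEqv t.2.1 _ t.2.2) t.1.2.1).2⟩
  have hfib : ∀ y : Y, Nat.card {t : P × Γ // Θ t = y} =
      Nat.card {g : Matrix (Fin 3) (Fin 3) R //
        (fun i => φ ((g *ᵥ (e1 : Fin 3 → R)) i)) = y.1.2 ∧
        ∃ a d e f' g' : R, Eqv g y.1.1 (sg a d e f' g')} := by
    rintro ⟨⟨c, v⟩, hc, hv⟩
    refine Nat.card_eq_of_bijective (fun t => ⟨t.1.2.1, ?_, ?_⟩) ⟨?_, ?_⟩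
    · exact congrArg (fun y : Y => y.1.2) t.2
    · have h1 : t.1.2.1.det • tsub (sg t.1.1.1.1 t.1.1.1.2.1 t.1.1.1.2.2.1 t.1.1.1.2.2.2.1
          t.1.1.1.2.2.2.2) t.1.2.1⁻¹ = c := congrArg (fun y : Y => y.1.1) t.2
      refine ⟨t.1.1.1.1, t.1.1.1.2.1, t.1.1.1.2.2.1, t.1.1.1.2.2.2.1, t.1.1.1.2.2.2.2, ?_⟩
      have h2 := hEqv t.1.2.1 (sg t.1.1.1.1 t.1.1.1.2.1 t.1.1.1.2.2.1 t.1.1.1.2.2.2.1
          t.1.1.1.2.2.2.2) t.1.2.2
      rw [h1] at h2
      exact h2
    · rintro ⟨⟨⟨⟨a, d, e, f', g'⟩, hp⟩, ⟨g, hg⟩⟩, ht⟩ ⟨⟨⟨⟨a2, d2, e2, f2, g2⟩, hp2⟩, ⟨h, hh⟩⟩, ht2⟩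
        hgh
      have h1 : g = h := congrArg Subtype.val hgh
      subst h1
      have h2 : g.det • tsub (sg a d e f' g') g⁻¹ = c := congrArg (fun y : Y => y.1.1) ht
      have h3 : g.det • tsub (sg a2 d2 e2 f2 g2) g⁻¹ = c := congrArg (fun y : Y => y.1.1) ht2
      have h4 := hEqv g (sg a d e f' g') hg
      have h5 := hEqv g (sg a2 d2 e2 f2 g2) hg
      rw [h2] at h4
      rw [h3] at h5
      have h6 : g.det • sg a d e f' g' = g.det • sg a2 d2 e2 f2 g2 := by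
        rw [← h4.2, h5.2]
      have h7 : sg a d e f' g' = sg a2 d2 e2 f2 g2 := by
        funext i
        have h8 := congrFun h6 i
        simp only [Pi.smul_apply, smul_eq_mul] at h8
        exact hg.mul_left_cancel h8
      obtain ⟨r1, r2, r3, r4, r5⟩ := sg_inj h7
      subst r1
      subst r2
      subst r3
      subst r4
      subst r5
      rfl
    · rintro ⟨g, hg1, a, d, e, f', g', hE⟩
      have hgood : Good (fun i => φ (c i)) (fun i => φ ((g *ᵥ (e1 : Fin 3 → R)) i)) := by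
        have : (fun i => φ ((g *ᵥ (e1 : Fin 3 → R)) i)) = v := hg1
        rw [this]
        exact hv
      have hun := unit_of_good φ hu c g a d e f' g' hE hgood
      have hfA : fsg τ a d e f' g' ∈ A := (hJA c g a d e f' g' hE).1 hc
      refine ⟨⟨(⟨(a, d, e, f', g'), hun, hfA⟩, ⟨g, hE.1⟩), ?_⟩, ?_⟩
      · apply Subtype.ext
        apply Prod.ext
        · show g.det • tsub (sg a d e f' g') g⁻¹ = c
          have h2 : tsub (tsub c g) g⁻¹ = c := by
            rw [Pool.AV3.tsub_mul, Matrix.mul_nonsing_inv g hE.1, tsub_one]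
          rw [hE.2, tsub_smul_form] at h2
          exact h2
        · exact hg1
      · rfl
  have hP : Nat.card P * Nat.card k = U * ∑ᶠ f ∈ A, (Nat.card k * nET f + Nat.card R) := by
    have := hNSU R k φ τ hR A hA
    rw [← Nat.card_coe_set_eq] at this
    exact this
  have hΓ : Nat.card Γ * Nat.card k ^ 6 =
      Nat.card R ^ 9 * ((Nat.card k - 1) * (Nat.card k ^ 2 - 1) * (Nat.card k ^ 3 - 1)) := by
    have := hGLC R k φ τ hR
    rw [← Nat.card_coe_set_eq] at this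
    exact this
  have hY : ∑ᶠ c ∈ {c : Fin 10 → R | Jc τ c ∈ A}, gdk (fun i => φ (c i)) = Nat.card Y := by
    exact finsum_card {c : Fin 10 → R | Jc τ c ∈ A} (fun c v => Good (fun i => φ (c i)) v)
  have hcard : Nat.card (P × Γ) * Nat.card k ^ 2 =
      Nat.card Y * (Nat.card R ^ 2 * (Nat.card R * U)) := by
    have : Fintype Y := Fintype.ofFinite Y
    rw [← Nat.card_congr (Equiv.sigmaFiberEquiv Θ), Nat.card_sigma, Finset.sum_mul]
    have h1 : ∀ y ∈ (Finset.univ : Finset Y), Nat.card {t : P × Γ // Θ t = y} * Nat.card k ^ 2 =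
        Nat.card R ^ 2 * (Nat.card R * U) := by
      intro y _
      rw [hfib y]
      exact key y.1.1 y.1.2 y.2.2
    rw [Finset.sum_congr rfl h1, Finset.sum_const, Finset.card_univ, smul_eq_mul,
      Nat.card_eq_fintype_card (α := Y)]
  rw [hY]
  rw [Nat.card_prod] at hcard
  set S := ∑ᶠ f ∈ A, (Nat.card k * nET f + Nat.card R) with hS
  set Q := (Nat.card k - 1) * (Nat.card k ^ 2 - 1) * (Nat.card k ^ 3 - 1) with hQ
  have hpos : 0 < Nat.card R ^ 3 * U := Nat.mul_pos (pow_pos hRpos 3) hUpos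
  apply Nat.eq_of_mul_eq_mul_right hpos
  calc Nat.card k ^ 5 * Nat.card Y * (Nat.card R ^ 3 * U) =
      Nat.card k ^ 5 * (Nat.card Y * (Nat.card R ^ 2 * (Nat.card R * U))) := by ring
    _ = Nat.card k ^ 5 * (Nat.card P * Nat.card Γ * Nat.card k ^ 2) := by rw [hcard]
    _ = (Nat.card P * Nat.card k) * (Nat.card Γ * Nat.card k ^ 6) := by ring
    _ = Q * Nat.card R ^ 6 * S * (Nat.card R ^ 3 * U) := by rw [hP, hΓ]; ring

end Pool.Agent.H95.AV3B
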