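import Pool.Agent.H8.AV3.Stmts2

/-!
# STL: stabilisers over a field
-/

set_option autoImplicit false

namespace Pool.Agent.H95.AV3B

open Polynomial Matrix Pool.AVR Pool.AV3

namespace STL

/-- A form of the class has an affine base point. -/
theorem affine (hCLT : CLTStmt) (hTOR : TOR3Stmt) (K : Type) [Field K] [DecidableEq K]
    [Infinite K] (h2 : (2 : K) ≠ 0) (f : K × K × K) (hd : dsc f ≠ 0) (hinf : Infinite (PtT f))
    (c : Fin 10 → K) (hc : Cls f c) :
    ∃ (x y : K) (_ : (E f.1 f.2.1 f.2.2).toAffine.Nonsingular x y)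
      (g : Matrix (Fin 3) (Fin 3) K), Eqv g (FP f.1 f.2.1 x y) c := by
  obtain ⟨P, g, hE⟩ := hc
  rcases P with _ | ⟨x, y, h⟩
  · have hfin := (hTOR K h2 f hd).1
    obtain ⟨T, hT⟩ := hfin.exists_notMem
    obtain ⟨g', hE'⟩ := hCLT K h2 f hd 0 T
    have h3 : (0 : PtT f) - (T + T + T) ≠ 0 := by
      intro h4
      apply hT
      show T + T + T = 0
      rw [zero_sub, neg_eq_zero] at h4
      exact h4
    rcases hQ : (0 : PtT f) - (T + T + T) with _ | ⟨x, y, h⟩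
    · exact absurd hQ h3
    · rw [hQ] at hE'
      have hE2 : Eqv g' (FQ (f := f) .zero) (FP f.1 f.2.1 x y) := hE'
      exact ⟨x, y, h, g'⁻¹ * g, hE2.symm.trans hE⟩
  · exact ⟨x, y, h, g, hE⟩

end STL

open STL

theorem STL_thm (hINJ : Pool.AV3.INJStmt) (hUNQ : Pool.AV3.UNQStmt) (hCLT : CLTStmt) (hTOR : TOR3Stmt)
    (hDSC : Pool.AVR.DSCStmt) : STLStmt := by
  intro K _ _ _ h2 f hd h3 hinf c hc T hT hprop
  obtain ⟨x, y, h, g₁, hE₁⟩ := affine hCLT hTOR K h2 f hd hinf c hc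
  obtain ⟨a, b, c₀⟩ := f
  have hsep : (cub a b c₀).Separable := ((hDSC K h2 a b c₀).1).2 hd
  have hon : OnC a b c₀ x y := by
    have h5 := h.1
    rw [WeierstrassCurve.Affine.equation_iff] at h5
    simp only [E] at h5
    show y ^ 2 = x ^ 3 + a * x ^ 2 + b * x + c₀
    linear_combination h5
  have h11 : g₁ * g₁⁻¹ = 1 := Matrix.mul_nonsing_inv g₁ hE₁.1
  have h11' : g₁⁻¹ * g₁ = 1 := Matrix.nonsing_inv_mul g₁ hE₁.1
  have hconj : ∀ g ∈ T, Eqv (g₁ * g * g₁⁻¹) (FP a b x y) (FP a b x y) := by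
    intro g hg
    exact (hE₁.trans (hT g hg)).trans hE₁.symm
  have hkey : ∀ g ∈ T, ∃ t : PtT (a, b, c₀), t + t + t = 0 ∧
      ∃ s : K, s ≠ 0 ∧ (g₁ * g * g₁⁻¹) *ᵥ e1 = s • phi x y t := by
    intro g hg
    obtain ⟨t, η, h'', ha, hb, -, hpt, hs, -⟩ :=
      hINJ K h2 a b c₀ a b c₀ hsep x y h x y hon _ (hconj g hg)
    have h3η : (3 : K) * η = 0 := by linear_combination -ha
    have hη : η = 0 := by
      rcases mul_eq_zero.1 h3η with h6 | h6
      · rcases h3 with h7 | h7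
        · exact absurd h6 h7
        · have h8 : 2 * a * η = 0 := by linear_combination -hb - η * h3η
          rcases mul_eq_zero.1 h8 with h9 | h9
          · exact absurd h9 (mul_ne_zero h2 h7)
          · exact h9
      · exact h6
    subst hη
    refine ⟨t, ?_, hs⟩
    have h6 : (WeierstrassCurve.Affine.Point.some (x + 0) y h'' : Pt a b c₀) =
        WeierstrassCurve.Affine.Point.some x y h := by
      simp only [add_zero]
    rw [h6] at hpt
    exact sub_eq_self.1 hpt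
  choose! τ hτ1 hτ2 using hkey
  have hfin := (hTOR K h2 (a, b, c₀) hd).1
  rw [← Set.ncard_coe_finset]
  apply Set.ncard_le_ncard_of_injOn τ (fun g hg => hτ1 g hg) ?_ hfin
  intro g hg g' hg' heq
  by_contra hne
  obtain ⟨s, hs0, hs⟩ := hτ2 g hg
  obtain ⟨s', hs0', hs'⟩ := hτ2 g' hg'
  rw [heq] at hs
  have hG := hconj g hg
  have hG' := hconj g' hg'
  set G := g₁ * g * g₁⁻¹ with hGdef
  set G' := g₁ * g' * g₁⁻¹ with hGdef'
  have hGG : G⁻¹ * G = 1 := Matrix.nonsing_inv_mul G hG.1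
  have hGG2 : G * G⁻¹ = 1 := Matrix.mul_nonsing_inv G hG.1
  have hH : Eqv (G⁻¹ * G') (FP a b x y) (FP a b x y) := hG.symm.trans hG'
  have hphi : phi x y (τ g') = s⁻¹ • (G *ᵥ (e1 : Fin 3 → K)) := by
    rw [hs, smul_smul, inv_mul_cancel₀ hs0, one_smul]
  have hHe : (G⁻¹ * G') *ᵥ (e1 : Fin 3 → K) = (s' * s⁻¹) • (e1 : Fin 3 → K) := by
    rw [← Matrix.mulVec_mulVec, hs', hphi, smul_smul, Matrix.mulVec_smul, Matrix.mulVec_mulVec,
      hGG, Matrix.one_mulVec]
  obtain ⟨r, η, hr, hu, hx, -, -, -⟩ := hUNQ K h2 a b x y a b x y _ _ hH hHe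
  have hη : η = 0 := by linear_combination hx
  subst hη
  have hu' : G⁻¹ * G' = r • (1 : Matrix (Fin 3) (Fin 3) K) := by
    rw [hu]
    ext i j
    fin_cases i <;> fin_cases j <;> simp [uni]
  have hG2 : G' = r • G := by
    calc G' = G * (G⁻¹ * G') := by rw [← Matrix.mul_assoc, hGG2, Matrix.one_mul]
      _ = r • G := by rw [hu', Matrix.mul_smul, Matrix.mul_one]
  apply hprop g hg g' hg' hne r
  calc g' = g₁⁻¹ * G' * g₁ := by
        rw [hGdef']
        calc g' = (g₁⁻¹ * g₁) * g' * (g₁⁻¹ * g₁) := by rw [h11', Matrix.one_mul, Matrix.mul_one]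
          _ = _ := by simp only [Matrix.mul_assoc]
    _ = r • (g₁⁻¹ * G * g₁) := by rw [hG2, Matrix.mul_smul, Matrix.smul_mul]
    _ = r • g := by
        rw [hGdef]
        congr 1
        calc g₁⁻¹ * (g₁ * g * g₁⁻¹) * g₁ = (g₁⁻¹ * g₁) * g * (g₁⁻¹ * g₁) := by
              simp only [Matrix.mul_assoc]
          _ = g := by rw [h11', Matrix.one_mul, Matrix.mul_one]

end Pool.Agent.H95.AV3B
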