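import Pool.Agent.H8.AV3.Stmts3

/-!
# TRV: nontrivial classes are represented in bounded degrees
-/

set_option autoImplicit false

namespace Pool.Agent.H95.AV3B

open Polynomial Matrix Pool.AVR Pool.AV3

namespace TRV

theorem dsc_map {R S : Type} [CommRing R] [CommRing S] (ψ : R →+* S) (f : R × R × R) :
    dsc (ψ f.1, ψ f.2.1, ψ f.2.2) = ψ (dsc f) := by
  simp only [dsc, disc, map_sub, map_add, map_mul, map_pow, map_ofNat]

/-- Smoothness transported by an equivalence. -/
theorem Smt_eqv {K L : Type} [Field K] [Field L] (φ : K →+* L) {c c' : Fin 10 → K}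
    {g : Matrix (Fin 3) (Fin 3) K} (h : Eqv g c c') (hs : Smt φ c) : Smt φ c' := by
  intro v hv h0
  have hm := h.map φ
  have hdet : (g.map φ).det ≠ 0 := hm.1.ne_zero
  have hinv : (g.map φ)⁻¹ *ᵥ ((g.map φ) *ᵥ v) = v := by
    rw [Matrix.mulVec_mulVec, Matrix.nonsing_inv_mul _ hm.1, Matrix.one_mulVec]
  have hne : (g.map φ) *ᵥ v ≠ 0 := by
    intro h1
    apply hv
    rw [← hinv, h1, Matrix.mulVec_zero]
  have hz : tev (fun i => φ (c i)) ((g.map φ) *ᵥ v) = 0 := by
    rw [hm.tev, h0, mul_zero]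
  obtain ⟨w, hw⟩ := hs _ hne hz
  refine ⟨(g.map φ)⁻¹ *ᵥ w, fun h1 => hw ?_⟩
  have hw2 : (g.map φ) *ᵥ ((g.map φ)⁻¹ *ᵥ w) = w := by
    rw [Matrix.mulVec_mulVec, Matrix.mul_nonsing_inv _ hm.1, Matrix.one_mulVec]
  rw [← hw2, hm.tder, h1, mul_zero]

/-- Descent of smoothness along an embedding. -/
theorem Smt_descend {K M N : Type} [Field K] [Field M] [Field N] (φ : K →+* M) (ψ : M →+* N)
    (c : Fin 10 → K) (hs : Smt (ψ.comp φ) c) : Smt φ c := by
  intro v hv h0
  have h1 : (fun i => ψ (v i)) ≠ 0 := by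
    intro h2
    apply hv
    funext i
    have h3 := congrFun h2 i
    exact (map_eq_zero ψ).1 h3
  have h2 : tev (fun i => (ψ.comp φ) (c i)) (fun i => ψ (v i)) = 0 := by
    have h3 := map_tev ψ (fun i => φ (c i)) v
    rw [h0, map_zero] at h3
    exact h3.symm
  obtain ⟨w, hw⟩ := hs _ h1 h2
  by_contra hcon
  push Not at hcon
  apply hw
  have h4 : ∀ w' : Fin 3 → M, tder (fun i => (ψ.comp φ) (c i)) (fun i => ψ (v i))
      (fun i => ψ (w' i)) = 0 := by
    intro w'
    have h3 := map_tder ψ (fun i => φ (c i)) v w'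
    rw [hcon w', map_zero] at h3
    exact h3.symm
  have h5 : w = w 0 • (fun i => ψ ((![1, 0, 0] : Fin 3 → M) i)) +
      w 1 • (fun i => ψ ((![0, 1, 0] : Fin 3 → M) i)) +
      w 2 • (fun i => ψ ((![0, 0, 1] : Fin 3 → M) i)) := by
    funext i
    fin_cases i <;> simp
  rw [h5, tder_add_right, tder_add_right, tder_smul_right, tder_smul_right, tder_smul_right,
    h4, h4, h4]
  ring

/-- The Jacobian of the form of a point. -/
theorem Jc_FQ {L : Type} [Field L] (τ : L) (hτ : 2 * τ = 1) (f : L × L × L) (Q : PtT f) :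
    Jc τ (FQ Q) = f := by
  obtain ⟨a, b, c⟩ := f
  rcases Q with _ | ⟨x, y, h⟩
  · exact Jc_FO τ a b c hτ
  · have h5 := h.1
    rw [WeierstrassCurve.Affine.equation_iff] at h5
    simp only [E] at h5
    exact Jc_FP τ a b c x y hτ (by linear_combination h5)

theorem sh_map {R S : Type} [CommRing R] [CommRing S] (ψ : R →+* S) (η : R) (f : R × R × R) :
    sh (ψ η) (ψ f.1, ψ f.2.1, ψ f.2.2) =
      (ψ (sh η f).1, ψ (sh η f).2.1, ψ (sh η f).2.2) := by
  simp only [sh, map_add, map_mul, map_pow, map_ofNat]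

end TRV

open TRV

theorem TRV_thm (hJER : JERStmt) (hSEC : SECStmt) (hSMO : Pool.AV3.SMOStmt)
    (hWNG : WNGStmt) : TRVStmt := by
  intro F _ _ h2 n α β f hf c hc hsel hnt
  obtain ⟨⟨hfam, hdisc⟩, h3⟩ := hf
  -- a local point
  obtain ⟨L, _, O, ι, hcomp, Q, g, hE⟩ := ((hSEC F h2 f).1 (mp c) hsel).1 X monic_X
    irreducible_X
  have hι := ι.injective
  have h2K : (2 : RatFunc F) ≠ 0 := by
    have h4 : (2 : RatFunc F) = algebraMap F (RatFunc F) 2 := by
      rw [map_ofNat]
    rw [h4]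
    intro h5
    exact h2 ((map_eq_zero _).1 h5)
  have h2L : (2 : L) ≠ 0 := hcomp.loc.two.1
  have hdK : dsc (AVS.kf f) ≠ 0 := by
    have h4 : dsc (AVS.kf f) = algebraMap F[X] (RatFunc F) (dsc f) :=
      dsc_map (algebraMap F[X] (RatFunc F)) f
    rw [h4]
    intro h5
    apply hdisc
    exact (map_eq_zero_iff _ (IsFractionRing.injective F[X] (RatFunc F))).1 h5
  have hdL : dsc (k3 ι f) ≠ 0 := by
    have h4 : dsc (k3 ι f) = ι (dsc (AVS.kf f)) := dsc_map ι (AVS.kf f)
    rw [h4]
    intro h5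
    exact hdK ((map_eq_zero ι).1 h5)
  have hcoef : ∀ i : Fin 10, (n : ℤ) + ∑ s, dv α β (tr i s) - ∑ j, dv α β j < 0 → c i = 0 := by
    intro i hi
    by_contra h4
    have h5 := hc i h4
    omega
  have hsum : ∑ j, dv α β j = 2 * (α : ℤ) + β := by
    simp only [dv, Fin.sum_univ_three, Matrix.cons_val]
    ring
  have hc0 : 2 * α + β > n → c 0 = 0 := by
    intro h4
    apply hcoef
    rw [hsum]
    simp only [dv, tr, Fin.sum_univ_three, Matrix.cons_val]
    omega
  have hc1 : α + β > n → c 1 = 0 := by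
    intro h4
    apply hcoef
    rw [hsum]
    simp only [dv, tr, Fin.sum_univ_three, Matrix.cons_val]
    omega
  have hc2 : α > n → c 2 = 0 := by
    intro h4
    apply hcoef
    rw [hsum]
    simp only [dv, tr, Fin.sum_univ_three, Matrix.cons_val]
    omega
  have hc3 : β > n → c 3 = 0 := by
    intro h4
    apply hcoef
    rw [hsum]
    simp only [dv, tr, Fin.sum_univ_three, Matrix.cons_val]
    omega
  constructor
  · by_contra hα
    push Not at hα
    have hs : Smt (RingHom.id L) (fun i => ι (mp c i)) :=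
      Smt_eqv _ hE (hSMO L L (RingHom.id L) h2L (k3 ι f) hdL Q)
    have e0 : ι (mp c 0) = 0 := by
      simp only [mp, hc0 (by omega), map_zero]
    have e1' : ι (mp c 1) = 0 := by
      simp only [mp, hc1 (by omega), map_zero]
    have e2 : ι (mp c 2) = 0 := by
      simp only [mp, hc2 (by omega), map_zero]
    obtain ⟨w, hw⟩ := hs ![1, 0, 0] (fun h4 => one_ne_zero (congrFun h4 0)) (by
      simp only [tev, RingHom.id_apply, e0, e1', e2, Matrix.cons_val]
      ring)
    apply hw
    simp only [tder, RingHom.id_apply, e0, e1', e2, Matrix.cons_val]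
    ring
  · by_contra hβ
    push Not at hβ
    -- smoothness over the algebraic closure
    let Lb := AlgebraicClosure L
    let ψ₀ : RatFunc F →+* Lb := (algebraMap L Lb).comp ι
    let _ : Algebra (RatFunc F) Lb := ψ₀.toAlgebra
    let ψ : AlgebraicClosure (RatFunc F) →ₐ[RatFunc F] Lb := IsAlgClosed.lift
    have hs : Smt (algebraMap L Lb) (fun i => ι (mp c i)) :=
      Smt_eqv _ hE (hSMO L Lb (algebraMap L Lb) h2L (k3 ι f) hdL Q)
    have hcomp2 : (ψ : AlgebraicClosure (RatFunc F) →+* Lb).comp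
        (algebraMap (RatFunc F) (AlgebraicClosure (RatFunc F))) = (algebraMap L Lb).comp ι :=
      ψ.comp_algebraMap
    have hsK : Smt (algebraMap (RatFunc F) (AlgebraicClosure (RatFunc F))) (mp c) := by
      apply Smt_descend _ (ψ : AlgebraicClosure (RatFunc F) →+* Lb)
      rw [hcomp2]
      intro v hv h0
      exact hs v hv h0
    have hinf : Infinite (RatFunc F) :=
      Infinite.of_injective _ (IsFractionRing.injective F[X] (RatFunc F))
    obtain ⟨g', f', hE'⟩ := hWNG (RatFunc F) h2K (mp c) hsK ![1, 0, 0] ![0, 1, 0] (mp c 6)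
      (fun h4 => one_ne_zero (congrFun h4 0))
      (fun r h4 => by
        have h5 := congrFun h4 1
        simp at h5)
      (fun s t => by
        have e0 : mp c 0 = 0 := by
          simp only [mp, hc0 (by omega), map_zero]
        have e1' : mp c 1 = 0 := by
          simp only [mp, hc1 (by omega), map_zero]
        have e3 : mp c 3 = 0 := by
          simp only [mp, hc3 (by omega), map_zero]
        simp only [tev, e0, e1', e3, Pi.add_apply, Pi.smul_apply, smul_eq_mul, Matrix.cons_val]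
        ring)
    -- the Jacobian
    have hτL : (2 : L) * (2 : L)⁻¹ = 1 := mul_inv_cancel₀ h2L
    obtain ⟨η₁, hη₁⟩ := hJER L (2 : L)⁻¹ hτL g _ _ hE
    rw [Jc_FQ _ hτL] at hη₁
    have hE2 := hE'.map ι
    obtain ⟨η₂, hη₂⟩ := hJER L (2 : L)⁻¹ hτL _ _ _ hE2
    have hFO : (fun i => ι (FO f'.1 f'.2.1 f'.2.2 i)) = FO (ι f'.1) (ι f'.2.1) (ι f'.2.2) := by
      funext i
      fin_cases i <;> simp [FO]
    rw [hFO, Jc_FO _ _ _ _ hτL, hη₁, sh_sh] at hη₂
    set η := η₂ + η₁ with hηdef
    have a1 : ι f'.1 = ι (AVS.kf f).1 + 3 * η := congrArg Prod.fst hη₂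
    have a2 : ι f'.2.1 = ι (AVS.kf f).2.1 + 2 * ι (AVS.kf f).1 * η + 3 * η ^ 2 :=
      congrArg (fun p => p.2.1) hη₂
    have hex : ∃ θ : RatFunc F, ι θ = η := by
      by_cases h3K : (3 : RatFunc F) = 0
      · have h3F : (3 : F) = 0 := by
          have h4 : (3 : RatFunc F) = algebraMap F (RatFunc F) 3 := by
            rw [map_ofNat]
          rw [h4] at h3K
          exact (map_eq_zero _).1 h3K
        have ha : f.1 ≠ 0 := by
          rcases h3 with h5 | h5
          · exact absurd h3F h5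
          · exact h5
        have haK : (AVS.kf f).1 ≠ 0 := by
          intro h6
          apply ha
          exact (map_eq_zero_iff _ (IsFractionRing.injective F[X] (RatFunc F))).1 h6
        have h3L : (3 : L) = 0 := by
          have h6 : (3 : L) = ι 3 := by rw [map_ofNat]
          rw [h6, h3K, map_zero]
        refine ⟨(f'.2.1 - (AVS.kf f).2.1) / (2 * (AVS.kf f).1), ?_⟩
        rw [map_div₀, map_sub, map_mul, map_ofNat, a2, h3L]
        have h7 : ι (AVS.kf f).1 ≠ 0 := fun h8 => haK ((map_eq_zero ι).1 h8)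
        field_simp
        ring
      · refine ⟨(f'.1 - (AVS.kf f).1) / 3, ?_⟩
        have h3L : (3 : L) ≠ 0 := by
          have h6 : (3 : L) = ι 3 := by rw [map_ofNat]
          rw [h6]
          intro h7
          exact h3K ((map_eq_zero ι).1 h7)
        rw [map_div₀, map_sub, map_ofNat, a1]
        field_simp
        ring
    obtain ⟨θ, hθ⟩ := hex
    have hf' : f' = sh θ (AVS.kf f) := by
      have h4 : sh η (k3 ι f) = (ι (sh θ (AVS.kf f)).1, ι (sh θ (AVS.kf f)).2.1,
          ι (sh θ (AVS.kf f)).2.2) := by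
        rw [← hθ]
        exact sh_map ι θ (AVS.kf f)
      rw [h4] at hη₂
      have b1 := hι (congrArg Prod.fst hη₂)
      have b2 := hι (congrArg (fun p => p.2.1) hη₂)
      have b3 := hι (congrArg (fun p => p.2.2) hη₂)
      exact Prod.ext b1 (Prod.ext b2 b3)
    apply hnt
    have h5 := Eqv_FO_sh (AVS.kf f).1 (AVS.kf f).2.1 (AVS.kf f).2.2 θ
    have h6 : (sh θ ((AVS.kf f).1, (AVS.kf f).2.1, (AVS.kf f).2.2)) = f' := hf'.symm
    rw [h6] at h5
    exact ⟨_, h5.trans hE'.symm⟩

end Pool.Agent.H95.AV3B
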